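import Pool.Agent.Lib.MP_d807e3_co.Mg.G004
import Pool.Agent.Lib.MP_d807e3_co.Plane

/-!
# The theorem in the plane
-/

set_option autoImplicit false

open Finset
open scoped Pointwise

namespace Pool.Agent.BD

open Pool.Agent.MP_d807e3_co

theorem doubling_line (K : ℝ) {ε : ℝ} (hε : 0 < ε) :
    ∃ c : ℝ, 0 < c ∧ ∀ (a u b v : Plane) (P Q T : Finset Plane),
      LinearIndependent ℝ ![u, v] →
      (∀ p ∈ T, ∃ t : ℝ, p = a + t • u) → (∀ q ∈ Q, ∃ t : ℝ, q = b + t • v) →
      ((T + T).card : ℝ) ≤ K * T.card →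
      c * ((P ∩ T).card : ℝ) * min ((P ∩ T).card : ℝ) (Q.card : ℝ) ≤
        (T.card : ℝ) ^ ε * ((distances P Q).card : ℝ) := by
  classical
  obtain ⟨K', hK', hmain⟩ := abstract_bd K hε
  have hKpos : 0 < K' := by linarith
  refine ⟨1 / K', by positivity, ?_⟩
  intro a u b v P Q T huv hT hQ hTT
  rcases T.eq_empty_or_nonempty with hTe | hTne
  · rw [hTe, Finset.inter_empty, Finset.card_empty, Nat.cast_zero, mul_zero, zero_mul]
    positivity
  have hli := LinearIndependent.pair_iff.1 huv
  have hu : u ≠ 0 := by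
    intro h0
    have := hli 1 0 (by simp [h0])
    exact one_ne_zero this.1
  -- coordinates on the first line
  set co : Plane → ℝ := fun p => (inner ℝ (p - a) u : ℝ) / (inner ℝ u u : ℝ) with hco
  have hA : 0 < (inner ℝ u u : ℝ) := real_inner_self_pos.2 hu
  have hcoe : ∀ t : ℝ, co (a + t • u) = t := by
    intro t
    rw [hco]
    dsimp only
    rw [add_sub_cancel_left, inner_smul_left, RCLike.conj_to_real, mul_div_assoc, div_self hA.ne',
      mul_one]
  have hT' : ∀ p ∈ T, p = a + co p • u := by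
    intro p hp
    obtain ⟨t, ht⟩ := hT p hp
    rw [ht, hcoe]
  set T0 : Finset ℝ := T.image co with hT0
  have hcardT : T0.card = T.card := by
    apply Finset.card_image_of_injOn
    intro q hq q' hq' heq
    rw [hT' q hq, hT' q' hq', heq]
  have hTT0 : ((T0 + T0).card : ℝ) ≤ K * T0.card := by
    rw [hcardT]
    refine le_trans ?_ hTT
    have h1 : (T0 + T0).card ≤ (T + T).card := by
      have h2 : T0 + T0 ⊆ (T + T).image (fun p => (inner ℝ (p - a - a) u : ℝ) / (inner ℝ u u : ℝ)) := by
        intro x hx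
        obtain ⟨y, hy, z, hz, rfl⟩ := Finset.mem_add.1 hx
        obtain ⟨p, hp, rfl⟩ := Finset.mem_image.1 hy
        obtain ⟨p', hp', rfl⟩ := Finset.mem_image.1 hz
        refine Finset.mem_image.2 ⟨p + p', Finset.add_mem_add hp hp', ?_⟩
        rw [hco]
        dsimp only
        rw [← add_div, ← inner_add_left]
        congr 2
        abel
      exact (Finset.card_le_card h2).trans Finset.card_image_le
    exact_mod_cast h1
  set T₁ : Finset ℝ := (P ∩ T).image co with hT₁
  have hcard₁ : T₁.card = (P ∩ T).card := by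
    apply Finset.card_image_of_injOn
    intro q hq q' hq' heq
    rw [hT' q (Finset.mem_inter.1 hq).2, hT' q' (Finset.mem_inter.1 hq').2, heq]
  choose! τ hτ using hQ
  set T₂ : Finset ℝ := Q.image τ with hT₂
  have hcard₂ : T₂.card = Q.card := by
    apply Finset.card_image_of_injOn
    intro q hq q' hq' heq
    rw [hτ q hq, hτ q' hq', heq]
  have h1 := hmain (inner ℝ u u) (inner ℝ u v) (inner ℝ v v) (inner ℝ (a - b) u)
    (inner ℝ (a - b) v) (inner ℝ (a - b) (a - b)) T0 T₁ T₂ hA (det_pos huv)
    (hTne.image _) (by convert hTT0) (Finset.image_subset_image Finset.inter_subset_right)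
  have h2 : ((T₁ ×ˢ T₂).image (fun z => qf (inner ℝ u u) (inner ℝ u v) (inner ℝ v v)
      (inner ℝ (a - b) u) (inner ℝ (a - b) v) (inner ℝ (a - b) (a - b)) z.1 z.2)).card ≤
      (distances P Q).card := by
    calc _ ≤ ((distances P Q).image (fun d => d ^ 2)).card := by
          apply Finset.card_le_card
          intro x hx
          obtain ⟨z, hz, rfl⟩ := Finset.mem_image.1 hx
          obtain ⟨hz1, hz2⟩ := Finset.mem_product.1 hz
          obtain ⟨q, hq, hqz⟩ := Finset.mem_image.1 hz2
          obtain ⟨p, hp, hpz⟩ := Finset.mem_image.1 hz1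
          refine Finset.mem_image.2 ⟨dist p q, ?_, ?_⟩
          · refine Finset.mem_image.2 ⟨(p, q), ?_, rfl⟩
            exact Finset.mem_product.2 ⟨(Finset.mem_inter.1 hp).1, hq⟩
          · have e1 : p = a + z.1 • u := by rw [← hpz]; exact hT' p (Finset.mem_inter.1 hp).2
            have e2 : q = b + z.2 • v := by rw [← hqz]; exact hτ q hq
            rw [e1, e2]
            exact dist_sq_eq a u b v z.1 z.2
      _ ≤ (distances P Q).card := Finset.card_image_le
  have h2' : ((((T₁ ×ˢ T₂).image (fun z => qf (inner ℝ u u) (inner ℝ u v) (inner ℝ v v)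
      (inner ℝ (a - b) u) (inner ℝ (a - b) v) (inner ℝ (a - b) (a - b)) z.1 z.2)).card : ℕ)
      : ℝ) ≤ ((distances P Q).card : ℝ) := by exact_mod_cast h2
  rw [hcard₂, hcard₁, hcardT] at h1
  have hNε : 0 ≤ (T.card : ℝ) ^ ε := by positivity
  have h4 : ((P ∩ T).card : ℝ) * min ((P ∩ T).card : ℝ) (Q.card : ℝ) ≤
      K' * ((T.card : ℝ) ^ ε * ((distances P Q).card : ℝ)) := by
    calc _ ≤ _ := h1
      _ ≤ K' * (T.card : ℝ) ^ ε * ((distances P Q).card : ℝ) := by
        refine mul_le_mul_of_nonneg_left ?_ (mul_nonneg hKpos.le hNε)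
        convert h2'
      _ = _ := by ring
  exact final_step hKpos h4

end Pool.Agent.BD
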